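import Pool.Agent.N495.TS.GenB
import Pool.Agent.N524.TS.SERRE
import Pool.Agent.N617.TS.TORSM
import Pool.Agent.N152.TS.SIZE

/-!
# MP_160b6c_nt: strong uniform boundedness, with polynomial bounds, for the abelian varieties isogenous to
products of elliptic curves with almost all invariants

Let `k` be a number field. The invariants `j ≠ 0, 1728` in `k`, of ALL heights, are ordered by the product
`radical j` of the norms of the primes (not dividing six) at which `j` reduces to `0`, `1728` or `∞`; there
are `X ^ (2 / 3 + o(1))` with `radical j ≤ X`.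

**Theorem.** There is a set `J` of invariants in `k` which contains all but a proportion `X ^ (-ν)` of the
invariants with `radical j ≤ X`, such that for EVERY finite extension `K` of `k`, of ANY degree `d`, EVERY
`g` and EVERY abelian variety `A` of dimension `g` over `K` which is isogenous over `K` to a product of
elliptic curves over `K` with invariants in `J`:

* the order of every torsion point in `A(K)` is at most `d ^ (4g)`, and its prime divisors are less than
  `d`; the order is at most `d ^ (2g)` if `d ^ (4 [k : ℚ])` is at most the height of the invariants;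
* the torsion subgroup of `A(K)` has at most `d ^ (8g²)` elements.

So `A(K)` is torsion free if `d ≤ 2`. The elliptic curves are arbitrary (all twists over `K`), the factors
may be different, and the bounds do not depend on `k` or on `A`.

Proof. (a) For almost all `j` and all curves over `k` of invariant `j` the image of the Galois group in the
automorphism group of `E[n]` contains all automorphisms of determinant `1` for all primes `n`, and for all
`n` prime to a simple pole of `j` (engine `Pool.Agent.Q19.SU` of helper19 and helper304; see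
MP_cda23d_nt.AllInvariantsAllPrimes). (b) Let `p ≥ 5` be the characteristic of the residue field of this
pole. By Serre's lemma the same is true for all powers of `p`. (c) Let `M` be an extension of `k` of degree
`d`. The conjugates of a subgroup of order `n > 1` of `E`, which is cyclic and stable over `M`, are at
least `n + 1`, if `n` is as in (a) or (b); so cyclic subgroups which are stable over `M` have at most `d ²`
elements. (d) Curves over `M` with the same invariant are twists, and have the same stable cyclic
subgroups. (e) Induction on the number of factors: a finite subgroup `L` of `E(K̄)`, stable over `M`,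
contains `E[a]`, and `a L` is cyclic, for some `a`; so a point of order `m` of `E / L` over `M` gives a
stable cyclic subgroup `a L` of order `b` and a point over `M` of an order `c` such that `m ∣ b c`.
-/

set_option autoImplicit false

open NumberField IsDedekindDomain
open scoped Classical

namespace Pool.Agent.Results.MP_160b6c_nt.AlmostAllProducts

/-- The curve `y² = x³ + Ax + B` over `K`. -/
def curve {K : Type} [Field K] (A B : K) : WeierstrassCurve K := ⟨0, 0, 0, A, B⟩

/-- The group of its points over the algebraic closure of `K`. -/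
abbrev Points {K : Type} [Field K] (A B : K) : Type :=
  ((curve A B).baseChange (AlgebraicClosure K)).toAffine.Point

/-- The action of an automorphism `σ` of the algebraic closure over `K` on the points. -/
noncomputable def galois {K : Type} [Field K] (A B : K)
    (σ : AlgebraicClosure K ≃ₐ[K] AlgebraicClosure K) : Points A B →+ Points A B :=
  WeierstrassCurve.Affine.Point.map (σ : AlgebraicClosure K →ₐ[K] AlgebraicClosure K)

/-- The invariant of `y² = x³ + Ax + B`. -/
noncomputable def jInvariant {K : Type} [Field K] (A B : K) : K :=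
  6912 * A ^ 3 / (4 * A ^ 3 + 27 * B ^ 2)

/-- the product of the norms of the primes not dividing six at which `j` reduces to `0`, `1728` or
`∞` -/
noncomputable def radical {K : Type} [Field K] [NumberField K] (j : K) : ℝ :=
  ∏ᶠ v ∈ {v : HeightOneSpectrum (𝓞 K) | v.valuation K 6 = 1 ∧
    (v.valuation K j ≠ 1 ∨ v.valuation K (j - 1728) ≠ 1)}, (Ideal.absNorm v.asIdeal : ℝ)

/-- the invariants `j ≠ 0, 1728`, of whatever height, with `radical j ≤ X` -/
def Invariants (K : Type) [Field K] [NumberField K] (X : ℝ) : Set K :=
  {j | j ≠ 0 ∧ j ≠ 1728 ∧ radical j ≤ X}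

/-- The kernels of the isogenies over `K` from the product of the curves `y² = x³ + A_i x + B_i`: the
finite subgroups of the group of points over the algebraic closure which are stable under the Galois
group. -/
def IsKernel {K : Type} [Field K] {g : ℕ} (A B : Fin g → K)
    (Γ : AddSubgroup (∀ i, Points (A i) (B i))) : Prop :=
  (Γ : Set (∀ i, Points (A i) (B i))).Finite ∧
    ∀ (σ : AlgebraicClosure K ≃ₐ[K] AlgebraicClosure K) (x : ∀ i, Points (A i) (B i)), x ∈ Γ →
      (fun i => galois (A i) (B i) σ (x i)) ∈ Γ

/-- The class of `x` modulo `Γ` is a point over `K` of the quotient of the product by `Γ`: it is fixed by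
the Galois group. -/
def IsRational {K : Type} [Field K] {g : ℕ} (A B : Fin g → K)
    (Γ : AddSubgroup (∀ i, Points (A i) (B i))) (x : ∀ i, Points (A i) (B i)) : Prop :=
  ∀ σ : AlgebraicClosure K ≃ₐ[K] AlgebraicClosure K,
    (fun i => galois (A i) (B i) σ (x i) - x i) ∈ Γ

/-- the order of the class of `x` modulo `Γ`, and `0` if the order is infinite -/
noncomputable def order {K : Type} [Field K] {g : ℕ} {A B : Fin g → K}
    (Γ : AddSubgroup (∀ i, Points (A i) (B i))) (x : ∀ i, Points (A i) (B i)) : ℕ :=
  addOrderOf (x : (∀ i, Points (A i) (B i)) ⧸ Γ)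

/-- `T` is a group of torsion points over `K` of the quotient of the product by `Γ`. -/
def IsTorsionGroup {K : Type} [Field K] {g : ℕ} (A B : Fin g → K)
    (Γ : AddSubgroup (∀ i, Points (A i) (B i))) (T : AddSubgroup ((∀ i, Points (A i) (B i)) ⧸ Γ)) :
    Prop :=
  ∀ t ∈ T, IsOfFinAddOrder t ∧ ∃ x : ∀ i, Points (A i) (B i), IsRational A B Γ x ∧
    (x : (∀ i, Points (A i) (B i)) ⧸ Γ) = t

/-- Bounds, in terms of `d`, for the torsion points over `K` of the quotient of the product of the curves
by `Γ`: all orders are at most `d ^ (4g)`, their prime divisors are less than `d`, and there are at most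
`d ^ (8g²)` torsion points. -/
def TorsionBound {K : Type} [Field K] {g : ℕ} (d : ℕ) (A B : Fin g → K)
    (Γ : AddSubgroup (∀ i, Points (A i) (B i))) : Prop :=
  (∀ x : ∀ i, Points (A i) (B i), IsRational A B Γ x → order Γ x ≠ 0 →
    (∀ l : ℕ, l.Prime → l ∣ order Γ x → l < d) ∧ order Γ x ≤ d ^ (4 * g)) ∧
  ∀ T : AddSubgroup ((∀ i, Points (A i) (B i)) ⧸ Γ), IsTorsionGroup A B Γ T →
    Finite T ∧ Nat.card T ≤ d ^ (8 * g ^ 2)

/-- For all finite extensions `K` of `k`, of degree `d`, and all abelian varieties over `K` which are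
isogenous over `K` to a product of `g` elliptic curves over `K` with invariants in `J`: the bounds above,
and all orders are at most `d ^ (2g)` if `d ^ (4 [k : ℚ])` is at most the (relative, multiplicative)
heights of the invariants. -/
def UniformlyBounded (k : Type) [Field k] [NumberField k] (J : Set k) : Prop :=
  ∀ (K : Type) [Field K] [NumberField K] [Algebra k K] [FiniteDimensional k K] (g : ℕ)
    (A B : Fin g → K) (j : Fin g → k), (∀ i, 4 * A i ^ 3 + 27 * B i ^ 2 ≠ 0 ∧ j i ∈ J ∧
      jInvariant (A i) (B i) = algebraMap k K (j i)) →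
    ∀ Γ : AddSubgroup (∀ i, Points (A i) (B i)), IsKernel A B Γ →
      TorsionBound (Module.finrank k K) A B Γ ∧
      ((∀ i, (Module.finrank k K : ℝ) ^ (4 * Module.finrank ℚ k) ≤ Height.mulHeight₁ (j i)) →
        ∀ x : ∀ i, Points (A i) (B i), IsRational A B Γ x →
          order Γ x ≤ Module.finrank k K ^ (2 * g))

theorem inv_eq (K : Type) [Field K] [NumberField K] (X : ℝ) :
    Invariants K X = Pool.Agent.Q19.JL.Iv K X := by
  ext j
  constructor
  · rintro ⟨h0, h1, h2⟩
    refine ⟨h0, h1, ?_⟩
    rw [← Pool.Agent.Q19.JL.rad_eq h0 h1]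
    exact h2
  · rintro ⟨h0, h1, h2⟩
    refine ⟨h0, h1, ?_⟩
    rw [← Pool.Agent.Q19.JL.rad_eq h0 h1] at h2
    exact h2

/-- **Theorem.** -/
theorem result (k : Type) [Field k] [NumberField k] :
    ∃ J : Set k, UniformlyBounded k J ∧
      (∃ ν X₀ : ℝ, 0 < ν ∧ ∀ X : ℝ, X₀ ≤ X →
        (({j | j ∈ Invariants k X ∧ j ∉ J} : Set k).ncard : ℝ) ≤
          X ^ (-ν) * (Invariants k X).ncard) ∧
      ∀ δ : ℝ, 0 < δ → ∃ X₀ : ℝ, ∀ X : ℝ, X₀ ≤ X → (Invariants k X).Finite ∧
        X ^ (2 / 3 - δ) ≤ ((Invariants k X).ncard : ℝ) ∧
        ((Invariants k X).ncard : ℝ) ≤ X ^ (2 / 3 + δ) := by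
  refine ⟨{j | Pool.Agent.N495.TS.LJk j ∧ Pool.Agent.Q19.SU.AllSLn (1 / 2) j}, ?_, ?_, ?_⟩
  · intro K _ _ _ _ g A B j h Γ hΓ
    have key := fun (x : ∀ i, Points (A i) (B i)) (hx : IsRational A B Γ x)
      (hf : IsOfFinAddOrder (x : (∀ i, Points (A i) (B i)) ⧸ Γ)) =>
      Pool.Agent.N495.TS.tq_gen Pool.Agent.N617.TS.t_TORSM k K (fun i => (h i).1) j
        (fun i => (h i).2.1.1) (fun i => (h i).2.2) Γ hΓ.1 hΓ.2 (x := x) hx hf
    refine ⟨⟨?_, ?_⟩, ?_⟩
    · intro x hx hf
      have hf := addOrderOf_pos_iff.1 (Nat.pos_of_ne_zero hf)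
      obtain ⟨h1, h2, -⟩ := key x hx hf
      exact ⟨fun l hl hd => h1 l hl hd, h2⟩
    · intro T hT
      have h2 := Pool.Agent.N152.TS.t_SIZE g (fun i => Points (A i) (B i))
        (fun i q hq => Pool.Agent.N495.TS.span2 (h i).1 hq) Γ hΓ.1 T
        (Module.finrank k K ^ (4 * g)) (by
          intro t ht
          obtain ⟨hf, x, hx, rfl⟩ := hT t ht
          exact ⟨hf, (key x hx hf).2.1⟩)
      refine ⟨h2.1, h2.2.trans (le_of_eq ?_)⟩
      rw [← pow_mul]
      congr 1
      ring
    · intro hH x hx
      rcases Nat.eq_zero_or_pos (order Γ x) with h0 | h0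
      · rw [h0]
        exact Nat.zero_le _
      · refine (key x hx (addOrderOf_pos_iff.1 h0)).2.2 ?_
        intro i A₀ B₀ hD hj N hN hNd
        refine (h i).2.1.2 A₀ B₀ hD hj N hN (Or.inr (Or.inl ?_))
        have hd : 0 < Module.finrank k K := Module.finrank_pos
        have hdR : (0 : ℝ) < Module.finrank k K := by exact_mod_cast hd
        have hNR : (0 : ℝ) < N := by exact_mod_cast hN
        have e1 : Real.log N ≤ 2 * Real.log (Module.finrank k K) := by
          have e2 : (N : ℝ) ≤ (Module.finrank k K : ℝ) ^ 2 := by exact_mod_cast hNd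
          have e3 := Real.log_le_log hNR e2
          rw [Real.log_pow] at e3
          push_cast at e3
          exact e3
        have e4 := Real.log_le_log (by positivity) (hH i)
        rw [Real.log_pow] at e4
        have e5 : Real.log (Height.mulHeight₁ (j i)) = Pool.Agent.W223.AK.ht (j i) := by
          rw [← Pool.Agent.Q19.SU.logH]
          rfl
        rw [e5] at e4
        push_cast at e4
        have e6 : (0 : ℝ) ≤ Module.finrank ℚ k := Nat.cast_nonneg _
        nlinarith
  · obtain ⟨ν, X₀, hν, -, h⟩ := Pool.Agent.Q19.SU.n_prop k (1 / 2) 1 (by norm_num)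
    refine ⟨ν, X₀, hν, fun X hX => ?_⟩
    rw [inv_eq]
    refine h X hX _ (fun j hj => hj.1) fun j hj hcon => hj.2 ⟨?_, hcon.1⟩
    refine Pool.Agent.N495.TS.ljk_of Pool.Agent.N524.TS.t_SERRE hj.1.1 hj.1.2.1 hcon.1 ?_
    have h1 := hcon.2.1
    have h2 := hcon.2.2
    linarith
  · intro δ hδ
    obtain ⟨X1, hX1, h1⟩ := Pool.Agent.Q19.JL.Iv_upper k δ hδ
    obtain ⟨X2, hX2, h2⟩ := Pool.Agent.Q19.JL.Iv_lower k δ hδ
    refine ⟨max X1 X2, fun X hX => ?_⟩
    rw [inv_eq]
    exact ⟨Pool.Agent.Q19.JL.Iv_fin k (hX1.trans ((le_max_left _ _).trans hX)),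
      h2 X ((le_max_right _ _).trans hX), h1 X ((le_max_left _ _).trans hX)⟩

end Pool.Agent.Results.MP_160b6c_nt.AlmostAllProducts
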