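import Mathlib
import Pool.Agent.N455.AV.Fin2

/-!
# MP_160b6c_nt: torsion points in families of abelian varieties

Let `k` be a number field and let `A_t`, `t = (t_1, …, t_m)`, be a family of abelian varieties over a
rational base, of any dimension: an abelian variety over the field `k(t_1, …, t_m)`. We show that for
100% of the parameters `t` the torsion points of `A_t` of degree at most `B` over `k` correspond
bijectively to the torsion points of degree at most `B` of the generic member over
`k(t_1, …, t_m)`, which are finite in number; the bijection respects the addition and the orders. In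
particular the torsion groups of `A_t(k)` and of `A(k(t_1, …, t_m))` are isomorphic, and the order of
the torsion points of degree at most `B` of these members is uniformly bounded. The parameters may run
through every sequence which is equidistributed modulo all integers, and one exceptional set of density
zero serves for all families of abelian varieties of all dimensions over all number fields.

Models. An abelian variety `A` over a field `K` is given by the following data in a projective space
`ℙ^N` over `K`: forms `A_1, …, A_q` whose common zeros are the points of the variety; polynomials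
`H_1, …, H_s` in three groups of `N + 1` variables, homogeneous in each group, which vanish at three
points `x, y, z` of the variety if and only if `x + y = z`; and forms `F_0, …, F_N` of degree `d ≥ 2`
without common zero such that `F(x) = e x` for all points `x` of the variety, for an integer `e ≥ 2`. By
a theorem of Fakhruddin (2003) every abelian variety over `K` has such data, since the multiplication
by `e` pulls a symmetric ample line bundle `L` back to the power `L ^ (e ^ 2)`. We take data with
coefficients in `k[t_1, …, t_m]` and assume that they define a commutative group over all algebraically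
closed extensions of `k(t_1, …, t_m)` (smoothness or connectedness are not needed). We prove that the
data define a commutative group at 100% of the parameters, and compare its torsion points with those of
the generic member.

Proof. A torsion point is a preperiodic point of `F` on the variety. The preperiodic points of degree at
most `B` of the generic member are finite in number, and they specialise to distinct preperiodic points
of degree at most `B`; for a suitable set of parameters of relative density one all preperiodic points
of degree at most `B` are obtained, by Hilbert's irreducibility theorem along equidistributed sequences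
and a bound for the periods of the points of degree at most `B`. The specialisation preserves and
reflects all closed relations, in particular the equations of the variety and of the addition. That
100% of the members are groups follows from the group law over an ultrapower of the algebraic closure
of `k`. There are countably many data over number fields, and a diagonal argument gives one exceptional
set.
-/

set_option autoImplicit false

namespace Pool.Agent.Results.MP_160b6c_nt.FamiliesOfAbelianVarieties

open MvPolynomial NumberField Filter Topology LinearAlgebra.Projectivization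

/-- Every finite part of the array `x i j` of sequences of integers is equidistributed modulo all
integers over the sets `S N`, `N → ∞`. -/
def Equidistributed (S : ℕ → Finset ℕ) (x : ℕ → ℕ → ℕ → ℤ) : Prop :=
  ∀ (T : Finset (ℕ × ℕ)) (q : ℕ), 1 ≤ q → ∀ r : ℕ × ℕ → ℤ,
    Tendsto (fun N : ℕ => ({n : ℕ | n ∈ S N ∧ ∀ p ∈ T, x p.1 p.2 n ≡ r p [ZMOD q]}.ncard : ℝ) /
      (S N).card) atTop (𝓝 (1 / (q : ℝ) ^ T.card))

/-- `E` has density zero relative to the sets `S N`. -/
def NullIn (S : ℕ → Finset ℕ) (E : Set ℕ) : Prop :=
  ∀ ε : ℝ, 0 < ε → ∃ N₀ : ℕ, ∀ N : ℕ, N₀ ≤ N →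
    ({n : ℕ | n ∈ S N ∧ n ∈ E}.ncard : ℝ) ≤ ε * (S N).card

/-- The vector of the integers `v_l(n) = ∑_j x_{l j}(n) ω_j` of `k`, `l = 0, …, m`. -/
noncomputable def vector {k : Type} [Field k] {r : ℕ} (ω : Module.Basis (Fin r) ℤ (𝓞 k))
    (x : ℕ → ℕ → ℕ → ℤ) (m n : ℕ) : Fin (m + 1) → 𝓞 k :=
  fun l => ∑ j : Fin r, x l j n • ω j

/-- `c` is the largest exponent of the generalised polynomial `∑ a_x n ^ x`; it is positive and not an
integer and has a positive coefficient. -/
def Admissible (F : Finset ℝ) (a : ℝ → ℝ) (c : ℝ) : Prop :=
  c ∈ F ∧ (∀ x ∈ F, x ≤ c) ∧ 0 < c ∧ (∀ m : ℕ, c ≠ m) ∧ 0 < a c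

/-- The integer parts of the values at `n` of the generalised polynomials
`P_{i j}(n) = ∑_{x ∈ F i j} a_{i j x} n ^ x`. -/
noncomputable def value (F : ℕ → ℕ → Finset ℝ) (a : ℕ → ℕ → ℝ → ℝ) (i j n : ℕ) : ℤ :=
  ⌊∑ x ∈ F i j, a i j x * (n : ℝ) ^ x⌋

/-- Forms `F_0, …, F_N`, forms `A_1, …, A_q` in `N + 1` variables and polynomials `H_1, …, H_s` in three
groups of `N + 1` variables over the ring `R`. -/
structure Data (R : Type) [CommRing R] (N q s : ℕ) where
  /-- the forms which define the endomorphism of `ℙ^N` -/
  F : Fin (N + 1) → MvPolynomial (Fin (N + 1)) R
  /-- the forms which define the variety -/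
  A : Fin q → MvPolynomial (Fin (N + 1)) R
  /-- the equations of the addition -/
  H : Fin s → MvPolynomial (Fin 3 × Fin (N + 1)) R

/-- The data with the images of the coefficients. -/
noncomputable def Data.map {R S : Type} [CommRing R] [CommRing S] {N q s : ℕ} (D : Data R N q s)
    (φ : R →+* S) : Data S N q s :=
  ⟨fun i => (D.F i).map φ, fun j => (D.A j).map φ, fun j => (D.H j).map φ⟩

/-- The data over the field `k(t_1, …, t_m)`. -/
noncomputable def generic {k : Type} [Field k] {m N q s : ℕ}
    (D : Data (MvPolynomial (Fin m) k) N q s) :
    Data (FractionRing (MvPolynomial (Fin m) k)) N q s :=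
  D.map (algebraMap (MvPolynomial (Fin m) k) (FractionRing (MvPolynomial (Fin m) k)))

/-- The data at `t = (v_1 / v_0, …, v_m / v_0)`. -/
noncomputable def special {k : Type} [Field k] {m N q s : ℕ}
    (D : Data (MvPolynomial (Fin m) k) N q s) (v : Fin (m + 1) → 𝓞 k) : Data k N q s :=
  D.map (MvPolynomial.eval fun l : Fin m =>
    algebraMap (𝓞 k) k (v l.succ) / algebraMap (𝓞 k) k (v 0))

/-- The polynomial `P` in `a` groups of `n` variables is homogeneous in each of the groups. -/
def IsMultihomogeneous {R : Type} [CommRing R] {a n : ℕ} (P : MvPolynomial (Fin a × Fin n) R) :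
    Prop :=
  ∃ e : Fin a → ℕ, ∀ s ∈ P.support, ∀ i, ∑ l, s (i, l) = e i

/-- The forms `F_i` are homogeneous of degree `d`, the forms `A_j` are homogeneous and the polynomials
`H_j` are homogeneous in each of the three groups of variables. -/
def Data.Homogeneous {R : Type} [CommRing R] {N q s : ℕ} (D : Data R N q s) (d : ℕ) : Prop :=
  (∀ i, (D.F i).IsHomogeneous d) ∧ (∀ j, ∃ c, (D.A j).IsHomogeneous c) ∧
    ∀ j, IsMultihomogeneous (D.H j)

/-- The points of the projective space of dimension `n - 1` over the field `Ω`. -/
def Pt (Ω : Type) [Field Ω] (n : ℕ) : Type := ℙ Ω (Fin n → Ω)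

/-- Homogeneous coordinates of a point. -/
noncomputable def Pt.coords {Ω : Type} [Field Ω] {n : ℕ} (p : Pt Ω n) : Fin n → Ω :=
  Projectivization.rep p

/-- The value of a polynomial with coefficients in `K` at a vector with coordinates in the extension
`Ω`. -/
noncomputable def evalAt {K Ω : Type} [Field K] [Field Ω] [Algebra K Ω] {σ : Type}
    (P : MvPolynomial σ K) (x : σ → Ω) : Ω :=
  aeval x P

/-- The line through the origin and `x`. -/
def line {Ω : Type} [Field Ω] {n : ℕ} (x : Fin n → Ω) : Submodule Ω (Fin n → Ω) :=
  Submodule.span Ω {x}

/-- The degree over `K` of the point with homogeneous coordinates `x`, that is, of the field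
generated by the quotients of the coordinates. -/
noncomputable def degree (K : Type) [Field K] {n : ℕ} (x : Fin n → AlgebraicClosure K) : ℕ :=
  Module.finrank K (IntermediateField.adjoin K (Set.range fun ij : Fin n × Fin n =>
    x ij.1 / x ij.2))

/-- The polynomial `P` in `a` groups of `n` variables vanishes at the points `p_1, …, p_a`. -/
def Vanishes {K Ω : Type} [Field K] [Field Ω] [Algebra K Ω] {a n : ℕ}
    (P : MvPolynomial (Fin a × Fin n) K) (p : Fin a → Pt Ω n) : Prop :=
  evalAt P (fun q : Fin a × Fin n => (p q.1).coords q.2) = 0

/-- `a + b = c` in the group `g`. -/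
def IsSum {G : Type} (_g : AddCommGroup G) (a b c : G) : Prop := a + b = c

/-- The multiple `e a` in the group `g`. -/
def multiple {G : Type} (_g : AddCommGroup G) (e : ℕ) (a : G) : G := e • a

/-- There is a bijection of the subset `T` of the group `g` to the subset `T'` of the group `g'` which
respects the addition, as far as it does not leave the subset, and the orders. -/
def Isomorphic {G G' : Type} (_g : AddCommGroup G) (_g' : AddCommGroup G') (T : Set G) (T' : Set G') :
    Prop :=
  ∃ φ : T ≃ T', (∀ a b c : T, a.1 + b.1 = c.1 ↔ (φ a).1 + (φ b).1 = (φ c).1) ∧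
    ∀ a : T, addOrderOf (φ a).1 = addOrderOf a.1

section

variable {K : Type} [Field K] {N q s : ℕ}

/-- The forms `F_i` have no common zero over the algebraic closure other than the origin: they define an
endomorphism of the projective space. -/
def Data.IsMorphism (D : Data K N q s) : Prop :=
  ∀ x : Fin (N + 1) → AlgebraicClosure K, (∀ i, evalAt (D.F i) x = 0) → x = 0

/-- The points over the extension `Ω` of the projective variety defined by the forms `A_j`. -/
def Data.Points (D : Data K N q s) (Ω : Type) [Field Ω] [Algebra K Ω] : Type :=
  {p : Pt Ω (N + 1) // ∀ j, evalAt (D.A j) p.coords = 0}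

/-- The point of the projective space. -/
def Data.pt (D : Data K N q s) {Ω : Type} [Field Ω] [Algebra K Ω] (x : D.Points Ω) : Pt Ω (N + 1) :=
  x.1

/-- The group structure `g` on the points of the variety over `Ω` is given by the equations `H_j`, that
is, `x + y = z` if and only if all `H_j` vanish at `x, y, z`; and the multiplication by `e` is given by
the forms `F_i`. -/
def Data.IsModel (D : Data K N q s) {Ω : Type} [Field Ω] [Algebra K Ω]
    (g : AddCommGroup (D.Points Ω)) (e : ℕ) : Prop :=
  (∀ x y z : D.Points Ω, IsSum g x y z ↔ ∀ j, Vanishes (D.H j) ![D.pt x, D.pt y, D.pt z]) ∧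
  ∀ x : D.Points Ω, line (fun i => evalAt (D.F i) (D.pt x).coords) =
    line (D.pt (multiple g e x)).coords

/-- Over every algebraically closed extension the data define a commutative group, with the
multiplication by `e` given by the forms `F_i`. -/
def Data.DefinesGroup (D : Data K N q s) (e : ℕ) : Prop :=
  ∀ (Ω : Type) [Field Ω] [IsAlgClosed Ω] [Algebra K Ω],
    ∃ g : AddCommGroup (D.Points Ω), D.IsModel g e

/-- The points over the algebraic closure. -/
abbrev Data.Geom (D : Data K N q s) : Type := D.Points (AlgebraicClosure K)

/-- The points of finite order and of degree at most `B` over `K`. -/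
def Data.torsion (D : Data K N q s) (_g : AddCommGroup D.Geom) (B : ℕ) : Set D.Geom :=
  {x | IsOfFinAddOrder x ∧ degree K (D.pt x).coords ≤ B}

end

/-- The member at `t = (v_1 / v_0, …, v_m / v_0)` is a commutative group with the same torsion points of
degree at most `B` as the generic member: `v_0 ≠ 0`, the forms `F_i` define an endomorphism of the
projective space, the data define a group structure `g'` on the points of the member over the algebraic
closure, with the multiplication by `e` given by the `F_i`, and there is a bijection of the torsion
points of degree at most `B` of the generic member to those of the member which respects the addition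
and the orders. -/
def SameTorsion {k : Type} [Field k] {m N q s : ℕ} (D : Data (MvPolynomial (Fin m) k) N q s) (e : ℕ)
    (g : AddCommGroup (generic D).Geom) (B : ℕ) (v : Fin (m + 1) → 𝓞 k) : Prop :=
  v 0 ≠ 0 ∧ (special D v).IsMorphism ∧
    ∃ g' : AddCommGroup (special D v).Geom, (special D v).IsModel g' e ∧
      Isomorphic g g' ((generic D).torsion g B) ((special D v).torsion g' B)

/-- For all integral bases of `k` and all data over `k[t_1, …, t_m]` which define a commutative group
over the algebraically closed extensions of `k(t_1, …, t_m)`: the torsion points of degree at most `B`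
of the generic member are finite in number, and the members at the `n` outside `E`, with finitely many
exceptions, are commutative groups with the same torsion points of degree at most `B`. -/
def Outside (E : Set ℕ) (x : ℕ → ℕ → ℕ → ℤ) (k : Type) [Field k] [NumberField k] : Prop :=
  ∀ (r : ℕ) (ω : Module.Basis (Fin r) ℤ (𝓞 k)) (N m q s d e : ℕ)
    (D : Data (MvPolynomial (Fin m) k) N q s), 2 ≤ d → 2 ≤ e → D.Homogeneous d →
    (generic D).IsMorphism → (generic D).DefinesGroup e →
    ∀ g : AddCommGroup (generic D).Geom, (generic D).IsModel g e → ∀ B : ℕ, ((generic D).torsion g B).Finite ∧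
      {n : ℕ | n ∉ E ∧ ¬ SameTorsion D e g B (vector ω x m n)}.Finite

/-- **Torsion points of bounded degree in families of abelian varieties, along equidistributed sequences
of parameters, with one exceptional set for all number fields, integral bases, families and degrees;
generalised polynomials are equidistributed over the integers and over the primes.** -/
theorem result :
    (∀ (x : ℕ → ℕ → ℕ → ℤ) (S₁ S₂ : ℕ → Finset ℕ), (∀ N, S₁ N ⊆ Finset.Ioc N (2 * N)) →
      (∀ N, S₂ N ⊆ Finset.Ioc N (2 * N)) → Equidistributed S₁ x → Equidistributed S₂ x →
      ∃ E : Set ℕ, NullIn S₁ E ∧ NullIn S₂ E ∧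
        ∀ (k : Subfield ℂ) [NumberField k], Outside E x k) ∧
    (∀ (F : ℕ → ℕ → Finset ℝ) (a : ℕ → ℕ → ℝ → ℝ) (c : ℕ → ℕ → ℝ),
      (∀ i j, Admissible (F i j) (a i j) (c i j)) →
      (Function.Injective fun q : ℕ × ℕ => c q.1 q.2) →
      Equidistributed (fun N => Finset.Ioc N (2 * N)) (value F a) ∧
      Equidistributed (fun N => (Finset.Ioc N (2 * N)).filter Nat.Prime) (value F a)) := by
  refine ⟨?_, fun F a c h hc => Pool.Agent.N938.TD.equiA_fl F a c h hc⟩
  intro x S₁ S₂ hS₁ hS₂ h₁ h₂
  obtain ⟨E, h1, h2, h3⟩ := Pool.Agent.N455.AV.av3 hS₁ hS₂ h₁ h₂
  refine ⟨E, h1, h2, ?_⟩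
  intro k _ r ω N m q s d e D hd he hD hmor hgrp g hG B
  obtain ⟨F, A, H⟩ := D
  obtain ⟨hF, hA, hH⟩ := hD
  obtain ⟨g1, g2⟩ := h3 k r ω N d hd m F hF hmor q s A H hA hH e he hgrp g hG B
  refine ⟨g1, g2.subset ?_⟩
  rintro n ⟨hnE, hn⟩
  exact ⟨hnE, _, rfl, hn⟩

end Pool.Agent.Results.MP_160b6c_nt.FamiliesOfAbelianVarieties
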