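import Pool.Agent.N733.TG.K
import Pool.Agent.N578.TG.Tor

/-!
# Torsion of abelian varieties isogenous to powers of elliptic curves, near values of multiplicative functions

The elliptic curves over `K`, of all heights, such that the radical of the invariant is near a value of a
multiplicative function, for example of Euler's function. For almost all arguments ALL abelian varieties
isogenous to a power of one of these curves have no torsion over `K` and small torsion over extensions.
-/

set_option autoImplicit false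

namespace Pool.Agent.Results.MP_160b6c_nt.MultiplicativeValues

open PowersAllHeights (Invariants radical SmallTorsion)
open Pool.Agent.N733.TG (LM Expanding keep_good)

/-- Let `K` be a number field. (1) There are `X ^ (2/3 + o(1))` invariants, of all heights, with `radical j ≤ X`. (2) For
`0 < t < 1` there is `η > 0` such that for all `f` in the class `LM`, all expanding `G` of order one, all `U` and all
large `N`, for all `m ≤ N` but `N / (log N)^U`: ALL `j ≠ 0, 1728` in `K` with `|radical j - G (f m)| ≤ f(m)^(1/3 + η)` have the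
property `SmallTorsion t j`: all abelian varieties isogenous to a power `E ^ g` of a curve of invariant `j` are
isomorphic to `E ^ g`, have no torsion over `K`, and the order `n` of their torsion points over an extension of
degree `D` satisfies `n ^ 2 ≤ 2 D` as long as `(2 D) ^ [K : ℚ] ≤ H(j) ^ (1 - t)`. (3) Euler's function and the sum of
divisors are in the class `LM`; `α v` (`α > 0`) is expanding of order one. -/
theorem result (K : Type) [Field K] [NumberField K] :
    (∀ δ : ℝ, 0 < δ → ∃ X₀ : ℝ, ∀ X : ℝ, X₀ ≤ X → (Invariants K X).Finite ∧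
      X ^ (2 / 3 - δ) ≤ ((Invariants K X).ncard : ℝ) ∧
      ((Invariants K X).ncard : ℝ) ≤ X ^ (2 / 3 + δ)) ∧
    (∀ t : ℝ, 0 < t → t < 1 → ∃ η : ℝ, 0 < η ∧ ∀ f : ℕ → ℕ, LM f → ∀ G : ℕ → ℝ, Expanding G 1 → ∀ U : ℕ,
      ∃ N₀ : ℕ, ∀ N : ℕ, N₀ ≤ N →
        ({m : ℕ | 1 ≤ m ∧ m ≤ N ∧ ¬ ∀ j : K, j ≠ 0 ∧ j ≠ 1728 → |radical j - G (f m)| ≤ (f m : ℝ) ^ (1 / 3 + η) →
          SmallTorsion t j}.ncard : ℝ) ≤ N / Real.log N ^ U) ∧
    LM Nat.totient ∧ LM (fun m => ∑ d ∈ m.divisors, d) ∧
    ∀ α : ℝ, 0 < α → Expanding (fun v => α * (v : ℝ) ^ (1 : ℝ)) 1 := by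
  refine ⟨(PowersAllHeights.result K).1, ?_, Pool.Agent.N733.TG.lm_totient, Pool.Agent.N733.TG.lm_sigma,
    fun α hα => Pool.Agent.N733.TG.expanding_pow hα le_rfl⟩
  intro t ht0 ht1
  obtain ⟨s, C, hs0, hs, hC, hfew⟩ := Pool.Agent.N578.TG.Tor.few K t ht0 ht1
  refine ⟨(2 / 3 - s) / 2, by linarith, fun f hf G hG U => ?_⟩
  refine keep_good (fun j : K => j ≠ 0 ∧ j ≠ 1728) (fun j : K => SmallTorsion t j) (fun j : K => radical j) hf hG
    (s := s) (κ := 1 / 3 + (2 / 3 - s) / 2) hs0 (by linarith) (by linarith) (fun ε hε => ⟨C, fun X hX => ?_⟩) U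
  obtain ⟨h1, h2⟩ := hfew X hX
  refine ⟨h1, h2.trans ?_⟩
  apply mul_le_mul_of_nonneg_left _ hC
  exact Real.rpow_le_rpow_of_exponent_le hX (by linarith)

end Pool.Agent.Results.MP_160b6c_nt.MultiplicativeValues
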