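import Pool.Agent.N495.TS.TK
import Pool.Agent.N495.TS.Ex2
import Pool.Agent.N478.TS.DENS
import Pool.Agent.N342.TS.FAC
import Pool.Agent.N505.TS.L23
import Pool.Agent.N933.TS.TAY
import Pool.Agent.N265.TS.TORSN
import Pool.Agent.N617.TS.TORSM
import Pool.Agent.N588.TS.EX
import Pool.Agent.N495.TS.SizeA
import Pool.Agent.N152.TS.SIZE

/-!
# MP_160b6c_nt: uniform bounds for the torsion over ALL number fields of the abelian varieties isogenous
to products of elliptic curves from thin families

Let `P_0, P_1, …` be generalised polynomials, for example `n ^ √2`, `n ^ π + n ^ (1/2)`, …, whose leading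
exponents are positive, different and not integers. We consider the invariants

`j = U(⌊P_{i_0}(n)⌋, …, ⌊P_{i_s}(n)⌋) / V(⌊P_{i_0}(n)⌋, …, ⌊P_{i_s}(n)⌋)`

for all families `(U, V)` of integral polynomials such that `U / V` has rich fibres modulo `p` and simple
poles modulo many `p` and is bounded along the sequence; for example the invariants of the curves
`y² = x³ + ⌊P_0(n)⌋ x + ⌊P_1(n)⌋`, or the invariants `⌊P_0(n)⌋ / ⌊P_1(n)⌋` if `P_1` grows at least as
fast as `P_0`. In such a family there are only `N` invariants with `n ≤ N`, of the `N ^ C` rational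
numbers of this height, `C` as large as we please.

**Theorem.** There is ONE set `E` of integers, of natural density zero and also of relative density zero
in the primes, such that, for all families at once, the invariants of the members with `n ∉ E`, `n ≥ n₀`
(`n₀` depends on the family), have the following properties.

1. Let `K` be ANY number field, of degree `d`, and let `A` be any abelian variety of dimension `g` over
   `K` which is isogenous over `K` to a product of elliptic curves over `K` with invariants of this kind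
   (from any of the families). Then the order of every torsion point in `A(K)` is at most `d ^ (4g)`, its
   prime divisors are less than `d`, and the torsion subgroup of `A(K)` has at most `d ^ (8g²)` elements.
   In particular `A(ℚ)` is torsion free, and so is `A(K)` for all quadratic fields `K`.
2. If `A` is an abelian variety over `ℚ` which is isogenous over `ℚ` to a product of elliptic curves over
   `ℚ` with invariants of this kind, then over every number field `M` of degree `d` the prime divisors `l`
   of the order of a torsion point satisfy `l ² ≤ 2 d`, and the order is at most `(2d) ^ g`.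
3. If `A` is isogenous over `ℚ` to a power `E ^ g` then it is isomorphic to `E ^ g` (the kernel is the
   kernel of an integral matrix), and the order of a torsion point over a number field of degree `d` is at
   most `2 d`, for all `g`.

For all `z` and `n ≥ n₀(z)` there are better bounds if `d ≤ z`: `d ^ (2g)` in (1), and if `2 d < z ²`
the squares of the orders in (2) and (3) are at most `(2d) ^ g` and `2 d`; up to a constant this is
optimal, since a point of order `n` is defined over a field of degree less than `n ²`.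

Proof. (a) Equidistribution of the integer parts modulo all `q ≤ N ^ κ`, over the integers and over the
primes, by the exponential sums of the starting library (`Pool.Agent.N666.TM` of helper666), and Turan's
sieve. (b) A fixed prime `l ≥ 5`: if the image of the Galois
group in `Aut E[l]` does not contain `SL₂(𝔽_l)` then one of finitely many polynomials `F(t, Y)`
irreducible over `ℚ(t)` has a rational root at `t = j` (helper673, `Y673.SL`); by Hilbert's theorem, the
theorems of Jordan and Chebotarev and the sieve this happens on a null set; the same for the polynomials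
of the points of order two and three. (c) All primes `l ≤ exp(κ √(log n))`: the polynomials of the
starting library as in (b), whose zeros are avoided by an effective count of the members with a given
invariant. (d) `l > exp(c √(log n))`: a stable subgroup of order `l` contradicts the theorem on heights of
`Q19.SU` (helper19, helper304), extended here from simple poles to poles whose order is prime to `l`,
since the finite part of the height of `j` is almost all of it: the denominator is not nearly a product of
powers of two and three; and the inertia group at a pole has an element of order `l`. (e) Two large primes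
`p`, `q` divide the denominator of `j` exactly once (Turan's sieve modulo squares), so by
`Q19.SU.Gen.all_levels` the image contains `SL₂(ℤ/m)` for all `m` prime to `p` or to `q`. (f) The orbits
of points and of cyclic subgroups of order `m` have at least `m² / 2` and `m + 1` elements, if `m > 1`.
(g) Induction on the number of factors: modulo a finite stable subgroup of one factor, which contains all
points killed by some `a` and is cyclic after multiplication by `a`, an invariant class gives an invariant
point and a stable cyclic subgroup. (h) The curves over `K` with rational invariant are twists.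
-/

set_option autoImplicit false

open NumberField MvPolynomial
open scoped Classical

namespace Pool.Agent.Results.MP_160b6c_nt.ThinFamiliesTorsion

/-- The curve `y² = x³ + Ax + B` over `K`. -/
def curve {K : Type} [Field K] (A B : K) : WeierstrassCurve K := ⟨0, 0, 0, A, B⟩

/-- The group of its points over the algebraic closure of `K`. -/
abbrev Points {K : Type} [Field K] (A B : K) : Type :=
  ((curve A B).baseChange (AlgebraicClosure K)).toAffine.Point

/-- The action of an automorphism `σ` of the algebraic closure over `K` on the points. -/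
noncomputable def galois {K : Type} [Field K] (A B : K)
    (σ : AlgebraicClosure K ≃ₐ[K] AlgebraicClosure K) : Points A B →+ Points A B :=
  WeierstrassCurve.Affine.Point.map (σ : AlgebraicClosure K →ₐ[K] AlgebraicClosure K)

/-- The invariant of `y² = x³ + Ax + B`. -/
noncomputable def jInvariant {K : Type} [Field K] (A B : K) : K :=
  6912 * A ^ 3 / (4 * A ^ 3 + 27 * B ^ 2)

/-- The kernels of the isogenies over `K` from the product of the curves `y² = x³ + A_i x + B_i`: the
finite subgroups of the group of points over the algebraic closure which are stable under the Galois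
group. -/
def IsKernel {K : Type} [Field K] {g : ℕ} (A B : Fin g → K)
    (Γ : AddSubgroup (∀ i, Points (A i) (B i))) : Prop :=
  (Γ : Set (∀ i, Points (A i) (B i))).Finite ∧
    ∀ (σ : AlgebraicClosure K ≃ₐ[K] AlgebraicClosure K) (x : ∀ i, Points (A i) (B i)), x ∈ Γ →
      (fun i => galois (A i) (B i) σ (x i)) ∈ Γ

/-- The class of `x` modulo `Γ` is a point over `M` of the quotient of the product by `Γ`: it is fixed by
the automorphisms which fix `M`. -/
def IsPointOver {K : Type} [Field K] {g : ℕ} (A B : Fin g → K)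
    (Γ : AddSubgroup (∀ i, Points (A i) (B i))) (M : IntermediateField K (AlgebraicClosure K))
    (x : ∀ i, Points (A i) (B i)) : Prop :=
  ∀ σ : AlgebraicClosure K ≃ₐ[K] AlgebraicClosure K, (∀ z ∈ M, σ z = z) →
    (fun i => galois (A i) (B i) σ (x i) - x i) ∈ Γ

/-- A generalised polynomial: exponents, coefficients, leading exponent. -/
structure GenPoly where
  /-- the exponents -/
  exps : Finset ℝ
  /-- the coefficients -/
  coef : ℝ → ℝ
  /-- the leading exponent -/
  lead : ℝ

/-- the integer part of the value at `n` -/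
noncomputable def GenPoly.value (P : GenPoly) (n : ℕ) : ℤ := ⌊∑ t ∈ P.exps, P.coef t * (n : ℝ) ^ t⌋

/-- the leading exponent is the largest one, it is positive and not an integer, and its coefficient is
positive -/
def GenPoly.Admissible (P : GenPoly) : Prop :=
  P.lead ∈ P.exps ∧ (∀ t ∈ P.exps, t ≤ P.lead) ∧ 0 < P.lead ∧ (∀ m : ℕ, P.lead ≠ m) ∧
    0 < P.coef P.lead

/-- A family of invariants `U / V` at the integer parts of `P_{i_0}(n), …, P_{i_s}(n)`. -/
structure Family where
  /-- the number of variables, minus one -/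
  s : ℕ
  /-- the indices `i_0, …, i_s` -/
  idx : Fin (s + 1) → ℕ
  /-- the numerator `U` -/
  num : MvPolynomial (Fin (s + 1)) ℤ
  /-- the denominator `V` -/
  den : MvPolynomial (Fin (s + 1)) ℤ

/-- the value of a polynomial at the integer parts -/
noncomputable def Family.at (P : ℕ → GenPoly) (f : Family) (F : MvPolynomial (Fin (f.s + 1)) ℤ)
    (n : ℕ) : ℤ := eval (fun i => (P (f.idx i)).value n) F

/-- the invariant -/
noncomputable def Family.invariant (P : ℕ → GenPoly) (f : Family) (n : ℕ) : ℚ :=
  (f.at P f.num n : ℚ) / (f.at P f.den n : ℚ)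

/-- The fibres of `U / V` over almost all residue classes are rich: for some `δ > 0` and some nonzero
integral polynomial `h` there are at least `δ p ^ (s - 1)` points modulo `p` with `U = t V`, `V ≠ 0`, `s`
the number of variables, for all large primes `p` and all `t` with `p ∤ h(t)`. (By Lang and Weil this
holds if the generic fibre is geometrically irreducible.) -/
def RichFibres {ι : Type} [Fintype ι] (U V : MvPolynomial ι ℤ) : Prop :=
  ∃ (δ : ℝ) (h : Polynomial ℤ) (p₀ : ℕ), 0 < δ ∧ h ≠ 0 ∧ ∀ p : ℕ, p.Prime → p₀ < p →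
    ∀ t : ℤ, ¬ (p : ℤ) ∣ h.eval t →
      δ * (p : ℝ) ^ Fintype.card ι ≤ p * ({ρ : ι → ZMod p |
        aeval ρ U = (t : ZMod p) * aeval ρ V ∧ aeval ρ V ≠ 0}.ncard : ℝ)

/-- `V` has at least `δ p ^ (s - 1)` simple zeros modulo `p` which are not zeros of `U`, for many primes
`p`: the sum of the reciprocals of these primes diverges. -/
def SimplePoles {ι : Type} [Fintype ι] (U V : MvPolynomial ι ℤ) : Prop :=
  ∃ δ : ℝ, 0 < δ ∧ ¬ Summable fun p : ℕ => if p.Prime ∧ δ * (p : ℝ) ^ Fintype.card ι ≤
    p * ({ρ : ι → ZMod p | aeval ρ V = 0 ∧ aeval ρ U ≠ 0 ∧ ∃ i, aeval ρ (pderiv i V) ≠ 0}.ncard : ℝ)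
    then (1 / p : ℝ) else 0

/-- the families which are considered -/
def Family.Good (P : ℕ → GenPoly) (f : Family) : Prop :=
  Function.Injective f.idx ∧ RichFibres f.num f.den ∧ SimplePoles f.num f.den ∧
    ∃ (C : ℝ) (n₁ : ℕ), ∀ n : ℕ, n₁ ≤ n →
      |((f.at P f.num n : ℤ) : ℝ)| ≤ C * |((f.at P f.den n : ℤ) : ℝ)|

/-- `E` has density zero relative to the finite sets `S N`. -/
def NullIn (S : ℕ → Finset ℕ) (E : Set ℕ) : Prop :=
  ∀ ε : ℝ, 0 < ε → ∃ N₀ : ℕ, ∀ N : ℕ, N₀ ≤ N →
    ({t : ℕ | t ∈ S N ∧ t ∈ E}.ncard : ℝ) ≤ ε * (S N).card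

/-- the invariants of the members with `n ∉ E`, `n ≥ n₀`, of all the families; the bound `n₀` depends on
the family and on `z` -/
def Invariants (P : ℕ → GenPoly) (E : Set ℕ) (n₀ : Family → ℕ → ℕ) (z : ℕ) : Set ℚ :=
  {j | ∃ f : Family, f.Good P ∧ ∃ n : ℕ, n ∉ E ∧ n₀ f z ≤ n ∧ j = f.invariant P n}

/-- the family of the curves `y² = x³ + ⌊P_i(n)⌋ x + ⌊P_k(n)⌋` -/
noncomputable def weierstrass (i k : ℕ) : Family :=
  ⟨1, ![i, k], C 6912 * X 0 ^ 3, C 4 * X 0 ^ 3 + C 27 * X 1 ^ 2⟩

/-- the family of the invariants `⌊P_i(n)⌋ / ⌊P_k(n)⌋` -/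
noncomputable def ratios (i k : ℕ) : Family := ⟨1, ![i, k], X 0, X 1⟩

/-- the order of the class of `x` modulo `Γ`, and `0` if the order is infinite -/
noncomputable def order {K : Type} [Field K] {g : ℕ} {A B : Fin g → K}
    (Γ : AddSubgroup (∀ i, Points (A i) (B i))) (x : ∀ i, Points (A i) (B i)) : ℕ :=
  addOrderOf (x : (∀ i, Points (A i) (B i)) ⧸ Γ)

/-- `T` is a group of torsion points over `K` of the quotient of the product by `Γ`. -/
def IsTorsionGroup {K : Type} [Field K] {g : ℕ} (A B : Fin g → K)
    (Γ : AddSubgroup (∀ i, Points (A i) (B i))) (T : AddSubgroup ((∀ i, Points (A i) (B i)) ⧸ Γ)) :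
    Prop :=
  ∀ t ∈ T, IsOfFinAddOrder t ∧ ∃ x : ∀ i, Points (A i) (B i), IsPointOver A B Γ ⊥ x ∧
    (x : (∀ i, Points (A i) (B i)) ⧸ Γ) = t

/-- (1) Bounds for the torsion points over `K` of the quotient of the product of the curves by `Γ`. -/
def BoundedOver {K : Type} [Field K] [NumberField K] {g : ℕ} (z : ℕ) (A B : Fin g → K)
    (Γ : AddSubgroup (∀ i, Points (A i) (B i))) : Prop :=
  ∀ x : ∀ i, Points (A i) (B i), IsPointOver A B Γ ⊥ x → order Γ x ≠ 0 →
    (∀ l : ℕ, l.Prime → l ∣ order Γ x → l < Module.finrank ℚ K) ∧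
    order Γ x ≤ Module.finrank ℚ K ^ (4 * g) ∧
    (Module.finrank ℚ K ≤ z → order Γ x ≤ Module.finrank ℚ K ^ (2 * g))

/-- (1) The number of torsion points over `K` of the quotient of the product of the curves by `Γ`. -/
def SizeOver {K : Type} [Field K] [NumberField K] {g : ℕ} (A B : Fin g → K)
    (Γ : AddSubgroup (∀ i, Points (A i) (B i))) : Prop :=
  ∀ T : AddSubgroup ((∀ i, Points (A i) (B i)) ⧸ Γ), IsTorsionGroup A B Γ T →
    Finite T ∧ Nat.card T ≤ Module.finrank ℚ K ^ (8 * g ^ 2)

/-- (2) Products over `ℚ`: bounds for the torsion points over `M`. -/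
def ProductBound {g : ℕ} (z : ℕ) (A B : Fin g → ℚ)
    (Γ : AddSubgroup (∀ i, Points (A i) (B i))) : Prop :=
  ∀ M : IntermediateField ℚ (AlgebraicClosure ℚ), FiniteDimensional ℚ M →
    ∀ x : ∀ i, Points (A i) (B i), IsPointOver A B Γ M x → order Γ x ≠ 0 →
      (∀ l : ℕ, l.Prime → l ∣ order Γ x → l ^ 2 ≤ 2 * Module.finrank ℚ M) ∧
      order Γ x ≤ (2 * Module.finrank ℚ M) ^ g ∧
      (2 * Module.finrank ℚ M < z ^ 2 → order Γ x ^ 2 ≤ (2 * Module.finrank ℚ M) ^ g)

/-- `Γ` is the kernel of an integral matrix of nonzero determinant. -/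
def IsMatrixKernel (g : ℕ) (A B : ℚ) (Γ : AddSubgroup (Fin g → Points A B)) : Prop :=
  ∃ N : Matrix (Fin g) (Fin g) ℤ, N.det ≠ 0 ∧
    ∀ x : Fin g → Points A B, x ∈ Γ ↔ ∀ i, ∑ k, N i k • x k = 0

/-- (3) Powers of `y² = x³ + Ax + B` over `ℚ`: bounds for the torsion points over `M`. -/
def PowerBound (g z : ℕ) (A B : ℚ) (Γ : AddSubgroup (Fin g → Points A B)) : Prop :=
  ∀ M : IntermediateField ℚ (AlgebraicClosure ℚ), FiniteDimensional ℚ M →
    ∀ x : Fin g → Points A B, IsPointOver (fun _ => A) (fun _ => B) Γ M x →
      order (A := fun _ => A) (B := fun _ => B) Γ x ≤ 2 * Module.finrank ℚ M ∧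
      (2 * Module.finrank ℚ M < z ^ 2 →
        order (A := fun _ => A) (B := fun _ => B) Γ x ^ 2 ≤ 2 * Module.finrank ℚ M)

/-- (0) the invariants are defined, and different from `0` and `1728` -/
def Defined (P : ℕ → GenPoly) (E : Set ℕ) (n₀ : Family → ℕ → ℕ) : Prop :=
  ∀ f : Family, f.Good P → ∀ n : ℕ, n ∉ E → n₀ f 0 ≤ n →
    f.at P f.den n ≠ 0 ∧ f.invariant P n ≠ 0 ∧ f.invariant P n ≠ 1728

/-- (1) bounds over all number fields `K`, for products of curves over `K` with these invariants -/
def AllFields (J : ℕ → Set ℚ) : Prop :=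
  ∀ (z : ℕ) (K : Type) [Field K] [NumberField K] (g : ℕ) (A B : Fin g → K),
    (∀ i, 4 * A i ^ 3 + 27 * B i ^ 2 ≠ 0 ∧ ∃ j ∈ J z, jInvariant (A i) (B i) = algebraMap ℚ K j) →
    ∀ Γ : AddSubgroup (∀ i, Points (A i) (B i)), IsKernel A B Γ →
      BoundedOver z A B Γ ∧ SizeOver A B Γ

/-- (2) better bounds for products of curves over `ℚ` with these invariants -/
def Products (J : ℕ → Set ℚ) : Prop :=
  ∀ (z g : ℕ) (A B : Fin g → ℚ), (∀ i, 4 * A i ^ 3 + 27 * B i ^ 2 ≠ 0 ∧ jInvariant (A i) (B i) ∈ J z) →
    ∀ Γ : AddSubgroup (∀ i, Points (A i) (B i)), IsKernel A B Γ → ProductBound z A B Γ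

/-- (3) better bounds for powers of curves over `ℚ` with these invariants -/
def Powers (J : ℕ → Set ℚ) : Prop :=
  ∀ (z : ℕ) (A B : ℚ), 4 * A ^ 3 + 27 * B ^ 2 ≠ 0 → jInvariant A B ∈ J z →
    ∀ (g : ℕ) (Γ : AddSubgroup (Fin g → Points A B)),
      IsKernel (fun _ => A) (fun _ => B) Γ → IsMatrixKernel g A B Γ ∧ PowerBound g z A B Γ

/-- one exceptional null set `E` for all families, and the bounds for the members outside `E` -/
def UniformBounds (P : ℕ → GenPoly) : Prop :=
  ∃ (E : Set ℕ) (n₀ : Family → ℕ → ℕ),
    NullIn (fun N => Finset.Ioc N (2 * N)) E ∧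
    NullIn (fun N => (Finset.Ioc N (2 * N)).filter Nat.Prime) E ∧
    Defined P E n₀ ∧ AllFields (Invariants P E n₀) ∧ Products (Invariants P E n₀) ∧
    Powers (Invariants P E n₀)

/-- the invariants of the curves `y² = x³ + ⌊P_i(n)⌋ x + ⌊P_k(n)⌋` are a family which is considered, for
`i ≠ k` -/
def WeierstrassGood (P : ℕ → GenPoly) : Prop :=
  ∀ i k : ℕ, i ≠ k → (weierstrass i k).Good P ∧ ∀ n : ℕ, (weierstrass i k).invariant P n =
    jInvariant ((P i).value n : ℚ) ((P k).value n : ℚ)

/-- the invariants `⌊P_i(n)⌋ / ⌊P_k(n)⌋` are a family which is considered, for `i ≠ k` if the leading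
exponent of `P_k` is at least the one of `P_i` -/
def RatiosGood (P : ℕ → GenPoly) : Prop :=
  ∀ i k : ℕ, i ≠ k → (P i).lead ≤ (P k).lead → (ratios i k).Good P ∧
    ∀ n : ℕ, (ratios i k).invariant P n = ((P i).value n : ℚ) / ((P k).value n : ℚ)

/-- **Theorem.** -/
theorem result (P : ℕ → GenPoly) (hP : ∀ i, (P i).Admissible)
    (hc : Function.Injective fun i => (P i).lead) :
    UniformBounds P ∧ WeierstrassGood P ∧ RatiosGood P := by
  refine ⟨?_, ?_, ?_⟩
  · obtain ⟨E, e1, e2, e3⟩ := Pool.Agent.N495.TS.one_null3 Pool.Agent.N478.TS.t_DENS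
      Pool.Agent.N342.TS.t_FAC Pool.Agent.N342.TS.t_NR Pool.Agent.N505.TS.t_L23
      Pool.Agent.N933.TS.t_TAY (F := fun i => (P i).exps) (a := fun i => (P i).coef)
      (c := fun i => (P i).lead) hP hc
    have hn₀ : ∀ (f : Family) (z : ℕ), ∃ n₀ : ℕ, f.Good P → ∀ n : ℕ, n ∉ E → n₀ ≤ n →
        Pool.Agent.N495.TS.Gz f.num f.den (fun i => (P (f.idx i)).value n) z := by
      intro f z
      by_cases hf : f.Good P
      · obtain ⟨h1, h2, h3, h4⟩ := hf
        have h5 := e3 f.s f.idx f.num f.den h1 h2 h3 h4 z
        obtain ⟨b, hb⟩ := h5.bddAbove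
        refine ⟨b + 1, fun _ n hn hbn => ?_⟩
        by_contra hcon
        have := hb (show n ∈ _ from ⟨hn, hcon⟩)
        omega
      · exact ⟨0, fun h => absurd h hf⟩
    choose n₀ hn₀ using hn₀
    have hJ : ∀ z j, j ∈ Invariants P E n₀ z → Pool.Agent.N495.TS.LJ z j := by
      rintro z j ⟨f, hf, n, hn, hn2, rfl⟩
      exact (hn₀ f z hf n hn hn2).2
    refine ⟨E, n₀, e1, e2, ?_, ?_, ?_, ?_⟩
    · intro f hf n hn hn2
      have h := hn₀ f 0 hf n hn hn2
      exact ⟨h.1, h.2.1, h.2.2.1⟩
    · intro z K _ _ g A B hAB Γ hΓ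
      have hD : ∀ i, 4 * A i ^ 3 + 27 * B i ^ 2 ≠ 0 := fun i => (hAB i).1
      have hj : ∀ i, ∃ j : ℚ, Pool.Agent.N495.TS.LJ z j ∧
          Pool.Agent.Y673.Loc.jv (A i) (B i) = algebraMap ℚ K j := by
        intro i
        obtain ⟨j, hj, hjj⟩ := (hAB i).2
        exact ⟨j, hJ z j hj, hjj⟩
      have hbot : ∀ x : ∀ i, Points (A i) (B i), IsPointOver A B Γ ⊥ x →
          ∀ σ : AlgebraicClosure K ≃ₐ[K] AlgebraicClosure K,
            (fun i => galois (A i) (B i) σ (x i) - x i) ∈ Γ := by
        intro x hx σ
        apply hx σ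
        intro y hy
        obtain ⟨w, rfl⟩ := IntermediateField.mem_bot.1 hy
        exact σ.commutes w
      constructor
      · intro x hx hf
        have hf := addOrderOf_pos_iff.1 (Nat.pos_of_ne_zero hf)
        obtain ⟨h1, h2, h3⟩ := Pool.Agent.N495.TS.tq_K Pool.Agent.N617.TS.t_TORSM (z := z) K hD hj
          Γ hΓ.1 hΓ.2 (x := x) (hbot x hx) hf
        exact ⟨fun l hl hd => h1 l hl hd, h2, h3⟩
      · intro T hT
        refine Pool.Agent.N495.TS.size_K Pool.Agent.N617.TS.t_TORSM Pool.Agent.N152.TS.t_SIZE
          (z := z) K hD hj Γ hΓ.1 hΓ.2 T ?_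
        intro t ht
        obtain ⟨h1, x, h2, h3⟩ := hT t ht
        exact ⟨h1, x, hbot x h2, h3⟩
    · intro z g A B hAB Γ hΓ M hM x hx hf
      have hf := addOrderOf_pos_iff.1 (Nat.pos_of_ne_zero hf)
      refine Pool.Agent.N495.TS.tq_prod Pool.Agent.N265.TS.TORSN.t_TORSN
        (fun i => (hJ z _ (hAB i).2).2.2 (A i) (B i) (hAB i).1 rfl) Γ hΓ.1 hΓ.2 M ?_ hf
      intro σ hσ
      exact hx σ ((IntermediateField.mem_fixingSubgroup_iff M σ).1 hσ)
    · intro z A B hD hAB g Γ hΓ
      obtain ⟨⟨N, hN0, hN⟩, h2⟩ := Pool.Agent.N495.TS.tq_power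
        ((hJ z _ hAB).2.2 A B hD rfl) Γ hΓ.1 hΓ.2
      refine ⟨⟨N, hN0, fun x => ?_⟩, ?_⟩
      · refine (hN x).trans ?_
        constructor
        · intro h1 i
          exact congrFun h1 i
        · intro h1
          funext i
          exact h1 i
      · intro M hM x hx
        rcases Nat.eq_zero_or_pos (order (A := fun _ : Fin g => A) (B := fun _ => B) Γ x) with h0 | h0
        · rw [h0]
          exact ⟨Nat.zero_le _, fun _ => Nat.zero_le _⟩
        · have hf := addOrderOf_pos_iff.1 h0
          refine h2 M x ?_ hf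
          intro σ hσ
          exact hx σ ((IntermediateField.mem_fixingSubgroup_iff M σ).1 hσ)
  · intro i k hik
    refine ⟨⟨?_, Pool.Agent.N495.TS.rich_short, Pool.Agent.N495.TS.poles_short
      Pool.Agent.N588.TS.t_EXZ, ?_⟩, ?_⟩
    · intro a b hab
      fin_cases a <;> fin_cases b
      · rfl
      · exact absurd hab hik
      · exact absurd hab.symm hik
      · rfl
    · exact Pool.Agent.N495.TS.bdd_short Pool.Agent.N588.TS.t_GRO
        (F := fun j => (P (![i, k] j)).exps) (a := fun j => (P (![i, k] j)).coef)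
        (c := fun j => (P (![i, k] j)).lead) (fun j => ⟨(hP _).1, (hP _).2.1, (hP _).2.2.1,
          (hP _).2.2.2.2⟩)
    · intro n
      unfold Family.invariant Family.at weierstrass jInvariant
      simp [GenPoly.value]
  · intro i k hik hle
    refine ⟨⟨?_, Pool.Agent.N495.TS.rich_quot, Pool.Agent.N495.TS.poles_quot
      Pool.Agent.N588.TS.t_EXZ, ?_⟩, ?_⟩
    · intro a b hab
      fin_cases a <;> fin_cases b
      · rfl
      · exact absurd hab hik
      · exact absurd hab.symm hik
      · rfl
    · exact Pool.Agent.N495.TS.bdd_quot Pool.Agent.N588.TS.t_GRO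
        (F := fun j => (P (![i, k] j)).exps) (a := fun j => (P (![i, k] j)).coef)
        (c := fun j => (P (![i, k] j)).lead) (fun j => ⟨(hP _).1, (hP _).2.1, (hP _).2.2.1,
          (hP _).2.2.2.2⟩) hle
    · intro n
      unfold Family.invariant Family.at ratios
      simp [GenPoly.value]

end Pool.Agent.Results.MP_160b6c_nt.ThinFamiliesTorsion
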